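import Pool.Agent.helper35.DR.SpecZ

/-! # Project dr (MP_baa4d7_al), module ZCA: case (b) -/

set_option autoImplicit false

namespace Pool.Agent.DR

open Pool.Agent.helper58.DC Pool.Agent.DI

/-- **ZCA**. -/
theorem ZCA (hGMN : GMN_stmt) (hZRL : ZRL_stmt) (hZNU : ZNU_stmt) : ZCA_stmt := by
  classical
  intro G E A _ _ _ _ _ _ X p _ M hM hpM hop χ hχ hst N _ hN hpN hcpl hinv hV d hd
  obtain ⟨r, hr, -, k, hk, hcard⟩ := hGMN A N hN
  have hrp : r ≠ p := by
    rintro rfl
    apply hpN
    rw [hcard]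
    exact dvd_pow_self _ (by omega)
  have hpg : IsPGroup r N := IsPGroup.of_card hcard
  have h1 := hZRL G E A X p M hM hpM hop χ hχ hst N hN r hr hrp hpg hinv d hd
  have h2 := hZNU A N hN r hr hpg hcpl
  have h3 : ∑ᶠ V : {V : Subgroup A // IsCpl N V}, altSum X p M χ d V.1 =
      -((ncpl N : ℤ) * altSum X p M χ d ⊤) := by
    have h4 : ∀ V : {V : Subgroup A // IsCpl N V}, altSum X p M χ d V.1 =
        -altSum X p M χ d ⊤ := fun V => by
      have := hV V.1 V.2 d
      linarith
    have : Fintype {V : Subgroup A // IsCpl N V} := Fintype.ofFinite _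
    rw [finsum_congr h4, finsum_eq_sum_of_fintype, Finset.sum_const, Finset.card_univ, ncpl,
      Nat.card_eq_fintype_card, nsmul_eq_mul]
    ring
  rw [h3] at h1
  have h5 : ((Nat.card N * GN (N.comap (prC A (r ^ padicValNat r (Nat.card A)))) 1
      (fun _ => True) : ℕ) : ℤ) ≠
      ((Nat.card (Zn A (r ^ padicValNat r (Nat.card A))) * ncpl N : ℕ) : ℤ) := by
    exact_mod_cast h2
  push_cast at h5
  have h6 : ((Nat.card N : ℤ) * GN (N.comap (prC A (r ^ padicValNat r (Nat.card A)))) 1
      (fun _ => True) - (Nat.card (Zn A (r ^ padicValNat r (Nat.card A))) : ℤ) * ncpl N) *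
      altSum X p M χ d ⊤ = 0 := by
    linear_combination h1
  rcases mul_eq_zero.1 h6 with h7 | h7
  · exact absurd (by linarith) h5
  · exact h7

end Pool.Agent.DR
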