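import Pool.Agent.helper35.DR.SpecP

/-! # Project dr (MP_baa4d7_al), module PDL: duals -/

set_option autoImplicit false

namespace Pool.Agent.DR

open Pool.Agent.helper58.DC Pool.Agent.DI

theorem PDL_dl_dl {G : Type} [Group G] (ψ : G → ℂ) : dl (dl ψ) = ψ := by
  funext g
  simp [dl]

/-- The dual of an irreducible representation is irreducible. -/
theorem PDL_simple {H V : Type} [Group H] [AddCommGroup V] [Module ℂ V] [FiniteDimensional ℂ V]
    (ρ : Representation ℂ H V) (h : ρ.IsIrreducible) : ρ.dual.IsIrreducible := by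
  have hV : Nontrivial V := by
    by_contra hc
    rw [not_nontrivial_iff_subsingleton] at hc
    apply (bot_ne_top (α := Subrepresentation ρ))
    apply Subrepresentation.toSubmodule_injective
    exact Subsingleton.elim _ _
  have hnt : Nontrivial (Subrepresentation ρ.dual) := by
    refine ⟨⟨⊥, ⊤, fun he => ?_⟩⟩
    have h1 : (⊥ : Submodule ℂ (Module.Dual ℂ V)) = ⊤ :=
      congrArg Subrepresentation.toSubmodule he
    exact bot_ne_top h1
  refine { eq_bot_or_eq_top := fun W => ?_ }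
  obtain ⟨U, hU⟩ : ∃ U : Subrepresentation ρ, U.toSubmodule = W.toSubmodule.dualCoannihilator := by
    refine ⟨⟨W.toSubmodule.dualCoannihilator, ?_⟩, rfl⟩
    intro g v hv
    rw [Submodule.mem_dualCoannihilator] at hv ⊢
    intro φ hφ
    have h1 : ρ.dual g⁻¹ φ ∈ W.toSubmodule := W.apply_mem_toSubmodule g⁻¹ hφ
    have h2 := hv _ h1
    rw [Representation.dual_apply, inv_inv] at h2
    exact h2
  have hW : W.toSubmodule = U.toSubmodule.dualAnnihilator := by
    rw [hU]
    exact (Subspace.dualCoannihilator_dualAnnihilator_eq).symm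
  rcases h.eq_bot_or_eq_top U with h1 | h1
  · right
    apply Subrepresentation.toSubmodule_injective
    rw [hW, h1]
    exact Submodule.dualAnnihilator_bot
  · left
    apply Subrepresentation.toSubmodule_injective
    rw [hW, h1]
    exact Submodule.dualAnnihilator_top

theorem PDL_irr1 {H : Type} [Group H] {χ : H → ℂ} (h : χ ∈ Irr H) : dl χ ∈ Irr H := by
  obtain ⟨V, i1, i2, i3, ρ, hρ, rfl⟩ := h
  refine ⟨Module.Dual ℂ V, inferInstance, inferInstance, inferInstance, ρ.dual,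
    PDL_simple ρ hρ, ?_⟩
  funext g
  exact Representation.char_dual ρ g

theorem PDL_irr {H : Type} [Group H] (χ : H → ℂ) : dl χ ∈ Irr H ↔ χ ∈ Irr H :=
  ⟨fun h => by simpa only [PDL_dl_dl] using PDL_irr1 h, PDL_irr1⟩

theorem PDL_irrOn1 {G : Type} [Group G] (H : Subgroup G) (ψ : G → ℂ) (h : ψ ∈ IrrOn H) :
    dl ψ ∈ IrrOn H := by
  refine ⟨fun g hg => h.1 g⁻¹ fun h' => hg (inv_mem_iff.1 h'), ?_⟩
  exact PDL_irr1 h.2

theorem PDL_omega {G : Type} [Group G] (ψ : G → ℂ) (g : G) : omega (dl ψ) g = omega ψ g⁻¹ := by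
  unfold omega
  congr 1
  · refine finsum_mem_eq_of_bijOn (fun x => x⁻¹) ⟨?_, ?_, ?_⟩ ?_
    · intro x hx
      obtain ⟨c, hc⟩ := isConj_iff.1 hx
      refine isConj_iff.2 ⟨c, ?_⟩
      change c * g⁻¹ * c⁻¹ = x⁻¹
      rw [← hc]
      group
    · exact inv_injective.injOn
    · intro y hy
      obtain ⟨c, hc⟩ := isConj_iff.1 hy
      refine ⟨y⁻¹, isConj_iff.2 ⟨c, ?_⟩, inv_inv y⟩
      rw [← hc]
      group
    · intro x _
      rfl
  · simp [dl]

theorem PDL_induces1 {G : Type} [Group G] (M : Ideal (integralClosure ℤ ℂ)) (ψ χ : G → ℂ)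
    (h : Induces M ψ χ) : Induces M (dl ψ) (dl χ) := by
  intro g
  obtain ⟨a, ha, hg⟩ := h g⁻¹
  exact ⟨a, ha, by rw [PDL_omega, PDL_omega, hg]⟩

theorem PDL_funMap {G : Type} [Group G] (α : MulAut G) (ψ : G → ℂ) :
    funMap α (dl ψ) = dl (funMap α ψ) := by
  funext g
  simp [funMap, dl]

/-- **PDL**. -/
theorem PDL : PDL_stmt := by
  intro G _ _ ψ χ
  refine ⟨PDL_dl_dl ψ, fun H => ⟨fun h => ?_, PDL_irrOn1 H ψ⟩, PDL_irr χ, fun p H d => ?_,
    fun M => ⟨fun h => ?_, PDL_induces1 M ψ χ⟩, fun E A _ _ X C => ?_⟩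
  · simpa only [PDL_dl_dl] using PDL_irrOn1 H (dl ψ) h
  · simp only [Defect, dl, inv_one]
  · simpa only [PDL_dl_dl] using PDL_induces1 M (dl ψ) (dl χ) h
  · ext e
    change (chainMap (X.act e) C = C ∧ funMap (X.act e) (dl ψ) = dl ψ) ↔
      (chainMap (X.act e) C = C ∧ funMap (X.act e) ψ = ψ)
    rw [PDL_funMap]
    constructor
    · rintro ⟨h1, h2⟩
      refine ⟨h1, ?_⟩
      have h3 := congrArg dl h2
      rwa [PDL_dl_dl, PDL_dl_dl] at h3
    · rintro ⟨h1, h2⟩
      exact ⟨h1, by rw [h2]⟩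

end Pool.Agent.DR
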